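import Mathlib
import Pool.Agent.helper99.S2P.D
import Pool.Agent.helper24.S2S

/-!
# Static Polyak-Lojasiewicz inequality
-/

set_option autoImplicit false

open MeasureTheory Metric Set Filter
open scoped ContDiff Topology

namespace Pool.Agent.helper68.S2

/-- **Static Polyak-Lojasiewicz inequality.** -/
theorem PL (c C : ℝ) (hc : 0 < c) : ∃ B, ∀ u : SS, (∀ p, |u p| ≤ C) → (∀ i p, |X i u p| ≤ C) →
    (∀ p, c ≤ Pc u p) → (∀ p, Pc u p ≤ C) → |Dn u| ≤ B * Yn u := by
  refine PLx.PL_of ⟨2, fun f p => ?_⟩ (fun f h => gap2 h) (fun f h h' => gap6 h h') c C hc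
  have h := sup_bound f p 1 le_rfl
  simp only [Nat.cast_one, one_mul, div_one] at h
  have h1 : 0 ≤ I (f * f) := I_nonneg fun p => mul_self_nonneg _
  have h2 : 0 ≤ I (Lap f * Lap f) := I_nonneg fun p => mul_self_nonneg _
  have h3 := Real.sq_sqrt h1
  have h4 := Real.sq_sqrt h2
  have h5 := Real.sqrt_nonneg (I (f * f))
  have h6 := Real.sqrt_nonneg (I (Lap f * Lap f))
  calc |f p| ^ 2 ≤ (√(I (f * f)) + √(I (Lap f * Lap f))) ^ 2 :=
        pow_le_pow_left₀ (abs_nonneg _) h 2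
    _ ≤ 2 * (I (f * f) + I (Lap f * Lap f)) := by
        nlinarith [sq_nonneg (√(I (f * f)) - √(I (Lap f * Lap f)))]

end Pool.Agent.helper68.S2
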